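import Mathlib
import Pool.Agent.V11309.DimQ1

/-! Q1: `dim_H (N(Q) \ DN(Q)) = 1` for every basic sequence which is infinite in limit and fully
divergent. -/

set_option autoImplicit false

namespace Pool.Agent.Results.MP_ba8092_nt.NormalNotDN

open Filter Topology Pool.Agent.V11309.Cantor
open Pool.Agent.V11309.DimQ1 (FullyDivergent DN)

/-- Let `Q` be any basic sequence which is infinite in limit and fully divergent. Then the set
`N(Q) \ DN(Q)` has Hausdorff dimension `1`. -/
theorem result (Q : ℕ → ℕ) (hQ : ∀ n, 1 ≤ n → 2 ≤ Q n) (hQt : Tendsto Q atTop atTop)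
    (hw : FullyDivergent Q) : dimH (Normal Q \ DN Q) = 1 :=
  Pool.Agent.V11309.DimQ1.q1 Q hQ hQt hw

end Pool.Agent.Results.MP_ba8092_nt.NormalNotDN
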