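import Mathlib
import Pool.Agent.V11309.DimQ2

/-! Q2: full Hausdorff dimension of the set of the numbers with a prescribed set of orders of
`Q`-normality. -/

set_option autoImplicit false

namespace Pool.Agent.Results.MP_ba8092_nt.OrdersDim

open Filter Topology Pool.Agent.V11309.Cantor
open Pool.Agent.V11309.DimQ1 (FullyDivergent)
open Pool.Agent.V11309.DimQ2 (NOrder)

/-- Let `Q` be any basic sequence which is infinite in limit and fully divergent, and let `L` be
any set of orders. Then the set of the numbers which are `Q`-normal of all the orders outside of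
`L` and of none of the orders in `L` has Hausdorff dimension `1`. For `L = {1, …, l - 1}` this is
Q2. -/
theorem result (Q : ℕ → ℕ) (hQ : ∀ n, 1 ≤ n → 2 ≤ Q n) (hQt : Tendsto Q atTop atTop)
    (hw : FullyDivergent Q) (L : Set ℕ) :
    dimH ((⋂ j ∈ {j : ℕ | 1 ≤ j ∧ j ∉ L}, NOrder Q j) \
      ⋃ j ∈ {j : ℕ | 1 ≤ j ∧ j ∈ L}, NOrder Q j) = 1 := by
  rw [← (Pool.Agent.V11309.DimQ2.q2 Q hQ hQt hw).1 L]
  congr 1
  ext x
  simp only [Set.mem_sdiff, Set.mem_iInter, Set.mem_iUnion, Set.mem_ofPred_eq, not_exists]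
  constructor
  · rintro ⟨h1, h2⟩ k hk
    constructor
    · intro hx hkL
      exact h2 k ⟨hk, hkL⟩ hx
    · exact fun h => h1 k ⟨hk, h⟩
  · intro h
    exact ⟨fun k hk => (h k hk.1).2 hk.2, fun k hk hx => (h k hk.1).1 hx hk.2⟩

end Pool.Agent.Results.MP_ba8092_nt.OrdersDim
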